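import Mathlib
import Pool.Agent.H76.LocLat

set_option autoImplicit false

namespace Pool.Agent.Results.MP_626926_al.Groups

open Pool.Agent.H76.LocLat

/-- Locally closed permutation groups on `X`: subgroups of `Sym X` that are closed in `Sym X`
for the topology induced from `X → X`; ordered by inclusion. -/
abbrev LocGroup (X : Type) [TopologicalSpace X] : Type :=
  {G : Subgroup (Equiv.Perm X) //
    @IsClosed (Equiv.Perm X) (TopologicalSpace.induced (fun g : Equiv.Perm X => (g : X → X))
      inferInstance) (G : Set (Equiv.Perm X))}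

theorem result (X : Type) [Countable X] [Infinite X] [TopologicalSpace X] [DiscreteTopology X] :
    ∃ f : MC → LocGroup X, IsLatticeEmbedding f := by
  obtain ⟨F, hinj, hcl, hm, hj, -⟩ := main X
  refine ⟨fun x => ⟨F x, isClosed_induced_iff.2 ⟨_, hcl x, ?_⟩⟩, ?_, fun x y => ⟨?_, ?_⟩⟩
  · ext g
    constructor
    · rintro ⟨g', hg', e⟩
      rwa [show g = g' from DFunLike.coe_injective e]
    · exact fun hg => ⟨g, hg, rfl⟩
  · exact fun x y h => hinj (congrArg Subtype.val h)
  · refine ⟨?_, fun z hz => ?_⟩
    · rintro _ (rfl | rfl)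
      · exact (hm x y).le.trans inf_le_left
      · exact (hm x y).le.trans inf_le_right
    · exact (le_inf (hz (Or.inl rfl)) (hz (Or.inr rfl))).trans (hm x y).ge
  · refine ⟨?_, fun z hz => ?_⟩
    · rintro _ (rfl | rfl)
      · exact le_sup_left.trans (hj x y).ge
      · exact le_sup_right.trans (hj x y).ge
    · exact (hj x y).le.trans (sup_le (hz (Or.inl rfl)) (hz (Or.inr rfl)))

end Pool.Agent.Results.MP_626926_al.Groups
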