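import Mathlib
import Pool.Agent.H76.LocLat

set_option autoImplicit false

namespace Pool.Agent.Results.MP_626926_al.Monoids

open Pool.Agent.H76.LocLat

/-- Local monoids on `X`: submonoids of the monoid of all maps `X → X` under composition that are
closed in the product topology; ordered by inclusion. -/
abbrev LocMonoid (X : Type) [TopologicalSpace X] : Type :=
  {M : Submonoid (Function.End X) // IsClosed {f : X → X | (f : Function.End X) ∈ M}}

/-- permutations as maps -/
def toEnd (X : Type) : Equiv.Perm X →* Function.End X where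
  toFun g := (g : X → X)
  map_one' := rfl
  map_mul' _ _ := rfl

theorem result (X : Type) [Countable X] [Infinite X] [TopologicalSpace X] [DiscreteTopology X] :
    ∃ f : MC → LocMonoid X, IsLatticeEmbedding f := by
  obtain ⟨F, hinj, hcl, hm, hj, hj'⟩ := main X
  have hi : Function.Injective (toEnd X) := fun a b h => DFunLike.coe_injective h
  have hmono : ∀ {G H : Subgroup (Equiv.Perm X)}, G ≤ H →
      G.toSubmonoid.map (toEnd X) ≤ H.toSubmonoid.map (toEnd X) :=
    fun h => Submonoid.monotone_map h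
  refine ⟨fun x => ⟨(F x).toSubmonoid.map (toEnd X), ?_⟩, ?_, fun x y => ⟨?_, ?_⟩⟩
  · convert hcl x using 3
    exact ⟨fun ⟨g, hg, e⟩ => ⟨g, hg, e.symm⟩, fun ⟨g, hg, e⟩ => ⟨g, hg, e.symm⟩⟩
  · intro x y h
    exact hinj (Subgroup.toSubmonoid_injective
      (Submonoid.map_injective_of_injective hi (congrArg Subtype.val h)))
  · refine ⟨?_, fun z hz g hg => ?_⟩
    · rintro _ (rfl | rfl)
      · exact hmono ((hm x y).le.trans inf_le_left)
      · exact hmono ((hm x y).le.trans inf_le_right)
    · obtain ⟨a, ha, rfl⟩ := hz (Or.inl rfl) hg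
      obtain ⟨b, hb, e⟩ := hz (Or.inr rfl) hg
      obtain rfl := hi e
      exact ⟨b, (hm x y).ge ⟨ha, hb⟩, rfl⟩
  · refine ⟨?_, fun z hz => ?_⟩
    · rintro _ (rfl | rfl)
      · exact hmono (le_sup_left.trans (hj x y).ge)
      · exact hmono (le_sup_right.trans (hj x y).ge)
    · rintro _ ⟨g, hg, rfl⟩
      obtain ⟨a, ha, b, hb, rfl⟩ := hj' x y g hg
      rw [map_mul]
      exact z.1.mul_mem (hz (Or.inl rfl) ⟨a, ha, rfl⟩) (hz (Or.inr rfl) ⟨b, hb, rfl⟩)

end Pool.Agent.Results.MP_626926_al.Monoids
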